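import Pool.Agent.Q28.AT.Defs

/-!
# The second moment over all tuples of conjugates
-/

namespace Pool.Agent.Q28.AT

open Finset MeasureTheory Pool.Agent.Q28.EQ Pool.Agent.Q28.OF Pool.Agent.Q155.HK

variable {G : Type} [Group G] {GF : Subgroup G} {n : ℕ} {C : Subgroup G}
  {Y : Fin n → CMCurve G GF}

theorem self_mem (U : Subgroup G) {P : Type*} [MulAction GF P] (x : P) : x ∈ orb GF U x :=
  ⟨1, U.one_mem, one_smul _ x⟩

theorem smul_mem {U : Subgroup G} {P : Type*} [MulAction GF P] {x y : P} (h : y ∈ orb GF U x)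
    (g : GF) (hg : (g : G) ∈ U) : g • y ∈ orb GF U x := by
  obtain ⟨k, hk, rfl⟩ := h
  exact ⟨g * k, U.mul_mem hg hk, mul_smul _ _ _⟩

theorem orb_congr {U : Subgroup G} {P : Type*} [MulAction GF P] {x y : P} (h : y ∈ orb GF U x) :
    orb GF U y = orb GF U x := by
  obtain ⟨g, hg, rfl⟩ := h
  ext z
  constructor
  · rintro ⟨g', hg', rfl⟩
    exact ⟨g' * g, U.mul_mem hg' hg, mul_smul _ _ _⟩
  · rintro ⟨g', hg', rfl⟩
    refine ⟨g' * g⁻¹, U.mul_mem hg' (by simpa using U.inv_mem hg), ?_⟩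
    rw [smul_smul, inv_mul_cancel_right]

theorem orb_mono {U V : Subgroup G} (h : U ≤ V) {P : Type*} [MulAction GF P] (x : P) :
    orb GF U x ⊆ orb GF V x := by
  rintro _ ⟨g, hg, rfl⟩
  exact ⟨g, h hg, rfl⟩

/-- the finite abelian group through which `C ⊓ ⨅ K` acts -/
theorem exists_quotient (hY : ∀ j, GaloisFacts C (Y j)) (x : Special Y) :
    ∃ (A : Type) (_ : CommGroup A) (_ : Fintype A)
      (π : (C ⊓ ⨅ j, (Y j).K (x j) : Subgroup G) →* A), Function.Surjective π ∧
      ∀ u, π u = 1 → ∀ j, (u : G) ∈ (Y j).H (x j) := by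
  classical
  set U : Subgroup G := C ⊓ ⨅ j, (Y j).K (x j) with hU
  set N : Subgroup G := ⨅ j, (Y j).H (x j) with hN
  have hUK : ∀ u ∈ U, ∀ j, u ∈ (Y j).K (x j) := fun u hu j =>
    (Subgroup.mem_iInf.1 (Subgroup.mem_inf.1 hu).2) j
  have hNn : N.Normal := ⟨fun h hh g => by
    rw [hN, Subgroup.mem_iInf] at hh ⊢
    exact fun j => ((hY j).dihedral (x j)).normal.conj_mem h (hh j) g⟩
  have hNf : N.FiniteIndex := by
    rw [hN]
    have := fun j => (hY j).finite_index (x j)
    exact Subgroup.finiteIndex_iInf this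
  have h1 : (N.subgroupOf U).Normal := hNn.subgroupOf U
  have h2 : (N.subgroupOf U).FiniteIndex := inferInstance
  have h3 : Finite (U ⧸ N.subgroupOf U) := Subgroup.finite_quotient_of_finiteIndex
  have hcomm : ∀ a b : U ⧸ N.subgroupOf U, a * b = b * a := by
    intro a b
    obtain ⟨u, rfl⟩ := QuotientGroup.mk_surjective a
    obtain ⟨v, rfl⟩ := QuotientGroup.mk_surjective b
    rw [← QuotientGroup.mk_mul, ← QuotientGroup.mk_mul, QuotientGroup.eq]
    rw [Subgroup.mem_subgroupOf, hN, Subgroup.mem_iInf]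
    intro j
    have h4 := ((hY j).dihedral (x j)).abelian (v : G)⁻¹ (((Y j).K (x j)).inv_mem (hUK _ v.2 j))
      (u : G)⁻¹ (((Y j).K (x j)).inv_mem (hUK _ u.2 j))
    have h5 : (((u * v)⁻¹ * (v * u) : U) : G) =
        (v : G)⁻¹ * (u : G)⁻¹ * ((v : G)⁻¹)⁻¹ * ((u : G)⁻¹)⁻¹ := by
      push_cast
      group
    rw [h5]
    exact h4
  refine ⟨U ⧸ N.subgroupOf U, { (inferInstance : Group (U ⧸ N.subgroupOf U)) with
    mul_comm := hcomm }, Fintype.ofFinite _, QuotientGroup.mk' _, QuotientGroup.mk'_surjective _,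
    fun u hu j => ?_⟩
  have h6 : u ∈ N.subgroupOf U := (QuotientGroup.eq_one_iff u).1 hu
  rw [Subgroup.mem_subgroupOf, hN, Subgroup.mem_iInf] at h6
  exact h6 j

theorem conj_finite (hY : ∀ j, GaloisFacts C (Y j)) (x : Special Y) :
    (Conjugates Y x).Finite :=
  Set.Finite.pi' fun j => orb_finite ((Y j).H (x j)) ((hY j).finite_index (x j)) (x j)
    (fun g hg => (hY j).fixed _ g hg) ⊤

theorem self_mem_conj (x : Special Y) : x ∈ Conjugates Y x := fun j => self_mem ⊤ (x j)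

theorem shift_mem {x z : Special Y} (hz : z ∈ Conjugates Y x) (k : Fin n → GF) :
    (fun j => k j • z j) ∈ Conjugates Y x := fun j => smul_mem (hz j) (k j) (Subgroup.mem_top _)

/-- averages over the box are invariant under independent translations -/
theorem avg_shift (x : Special Y) (k : Fin n → GF) (h : Special Y → ℝ) :
    avg (Conjugates Y x) (fun z => h fun j => k j • z j) = avg (Conjugates Y x) h := by
  rw [avg, avg]
  congr 1
  refine finsum_mem_eq_of_bijOn (fun z : Special Y => fun j => k j • z j) ⟨fun z hz => ?_, ?_, ?_⟩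
    fun z _ => rfl
  · exact shift_mem hz k
  · intro z _ z' _ hzz
    funext j
    have := congrFun hzz j
    exact smul_left_cancel (k j) this
  · intro z hz
    refine ⟨fun j => (k j)⁻¹ • z j, shift_mem hz fun j => (k j)⁻¹, ?_⟩
    funext j
    exact smul_inv_smul (k j) (z j)

theorem avg_mean {α ι : Type*} [Fintype ι] {S : Set α} (hS : S.Finite) (F : ι → α → ℝ) :
    avg S (fun z => mean fun i => F i z) = mean fun i => avg S (F i) := by
  rw [avg_eq hS]
  simp only [mean, avg_eq hS]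
  rw [← Finset.sum_div, ← Finset.sum_div, Finset.sum_comm, div_div, div_div, mul_comm]

/-- averages over the box of means over independent translations -/
theorem avg_box_mean (hY : ∀ j, GaloisFacts C (Y j)) (x : Special Y) {ι : Type*} [Fintype ι]
    [Nonempty ι] (k : ι → Fin n → GF) (h : Special Y → ℝ) :
    avg (Conjugates Y x) h =
      avg (Conjugates Y x) fun z => mean fun i => h fun j => k i j • z j := by
  rw [avg_mean (conj_finite hY x) fun i z => h fun j => k i j • z j]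
  simp only [avg_shift x]
  rw [mean_const]

/-- **the second moment** -/
theorem second_moment (hC : C ≤ GF) (hY : ∀ j, GaloisFacts C (Y j)) (x : Special Y)
    (φ : ∀ j, (Y j).P → ℝ) {M ε κ c : ℝ} (hM1 : 1 ≤ M) (hM : ∀ j p, |φ j p| ≤ M) (hε : 0 ≤ ε)
    (h1 : ∀ z ∈ Conjugates Y x,
      |∏ j, avg (orb GF (C ⊓ ⨅ k, (Y k).K (x k)) (z j)) (φ j) - c| ≤ κ)
    (h2 : ∀ j, ∀ p ∈ orb GF ⊤ (x j), ∀ t : (Y j).P → ℂ,
      Twist GF (C ⊓ ⨅ k, (Y k).K (x k)) p t →
      ‖(∑ᶠ y ∈ orb GF (C ⊓ ⨅ k, (Y k).K (x k)) p, t y * φ j y) /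
        (orb GF (C ⊓ ⨅ k, (Y k).K (x k)) p).ncard‖ ≤ ε) :
    avg (Conjugates Y x) (fun z =>
      (avg (orb GF (C ⊓ ⨅ k, (Y k).K (x k)) z) (fun y => ∏ j, φ j (y j)) - c) ^ 2) ≤
      n * M ^ (2 * n + 1) * ε + κ ^ 2 := by
  classical
  have hq := exists_quotient hY x
  obtain ⟨U, hUdef⟩ : ∃ U : Subgroup G, U = C ⊓ ⨅ k, (Y k).K (x k) := ⟨_, rfl⟩
  rw [← hUdef] at h1 h2 hq ⊢
  obtain ⟨A, _, _, π, hπ, hker⟩ := hq
  have hU : U ≤ GF := hUdef.le.trans (inf_le_left.trans hC)
  have hfix : ∀ j, ∀ p ∈ orb GF ⊤ (x j), Fixes hU π p := fun j p hp u hu => by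
    obtain ⟨g, -, rfl⟩ := hp
    refine (hY j).fixed _ _ ?_
    rw [(hY j).H_smul]
    exact hker u hu j
  have hfix' : ∀ z ∈ Conjugates Y x, Fixes hU π z := fun z hz u hu => by
    funext j
    exact hfix j (z j) (hz j) u hu
  have hne : (Conjugates Y x).Nonempty := ⟨x, self_mem_conj x⟩
  rw [avg_box_mean hY x (fun (σ : Fin n → Additive A) j => lift hU hπ (σ j).toMul)]
  refine (avg_mono (conj_finite hY x) (g := fun _ => n * M ^ (2 * n + 1) * ε + κ ^ 2)
    fun z hz => ?_).trans (avg_const (conj_finite hY x) hne _).le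
  have h3 := variance (α := Additive A) (fun j a => φ j (lift hU hπ a.toMul • z j)) hM1
    (fun j a => hM j _) hε (fun j ψ hψ => four_le hU hπ (hfix j _ (hz j)) (φ j) hε
      (h2 j _ (hz j)) ψ hψ) c
  have h4 : ∀ j, mean (fun a : Additive A => φ j (lift hU hπ a.toMul • z j)) =
      avg (orb GF U (z j)) (φ j) := fun j => by
    rw [avg_lift_real hU hπ (hfix j _ (hz j))]
    exact mean_equiv Additive.toMul fun a => φ j (lift hU hπ a • z j)
  simp only [h4] at h3
  have h5 : ∀ σ : Fin n → Additive A,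
      avg (orb GF U fun j => lift hU hπ (σ j).toMul • z j) (fun y => ∏ j, φ j (y j)) =
        mean fun τ : Additive A => ∏ j, φ j (lift hU hπ (σ j + τ).toMul • z j) := fun σ => by
    rw [avg_lift_real hU hπ (hfix' _ (shift_mem hz fun j => lift hU hπ (σ j).toMul))]
    rw [← mean_equiv Additive.toMul]
    refine congrArg mean (funext fun τ => ?_)
    refine Finset.prod_congr rfl fun j _ => ?_
    rw [toMul_add, mul_comm, lift_mul hU hπ (hfix j _ (hz j))]
    rfl
  simp only [h5]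
  refine h3.trans ?_
  have h6 := h1 z hz
  have h7 : (∏ j, avg (orb GF U (z j)) (φ j) - c) ^ 2 ≤ κ ^ 2 := by
    rw [← sq_abs]
    exact pow_le_pow_left₀ (abs_nonneg _) h6 2
  linarith

/-- **the first moment for the full Galois orbits** -/
theorem first_moment (hY : ∀ j, GaloisFacts C (Y j)) (x : Special Y)
    (Φ : Special Y → ℝ) {V r c : ℝ} (hr : 0 < r)
    (h : avg (Conjugates Y x) (fun z =>
      (avg (orb GF (C ⊓ ⨅ k, (Y k).K (x k)) z) Φ - c) ^ 2) ≤ V) :
    avg (Conjugates Y x) (fun z => |avg (orb GF ⊤ z) Φ - c|) ≤ r + V / r := by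
  set U : Subgroup G := C ⊓ ⨅ k, (Y k).K (x k) with hUdef
  have hS := conj_finite hY x
  have hne : (Conjugates Y x).Nonempty := ⟨x, self_mem_conj x⟩
  have horb : ∀ z ∈ Conjugates Y x, orb GF ⊤ z ⊆ Conjugates Y x := by
    rintro z hz _ ⟨g, -, rfl⟩
    exact shift_mem hz fun _ => g
  have hof : ∀ z ∈ Conjugates Y x, (orb GF ⊤ z).Finite := fun z hz => hS.subset (horb z hz)
  have h1 : ∀ z ∈ Conjugates Y x, |avg (orb GF ⊤ z) Φ - c| ≤
      avg (orb GF ⊤ z) fun y => |avg (orb GF U y) Φ - c| := fun z hz => by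
    have h2 := avg_avg (hof z hz) (fun y => orb GF U y)
      (fun y hy => (orb_mono le_top y).trans (orb_congr hy).le) (fun y _ => self_mem U y)
      (fun y _ w hw => orb_congr hw) Φ
    have h3 : avg (orb GF ⊤ z) Φ - c = avg (orb GF ⊤ z) fun y => avg (orb GF U y) Φ - c := by
      rw [avg_sub (hof z hz), h2, avg_const (hof z hz) ⟨z, self_mem ⊤ z⟩]
    rw [h3]
    exact abs_avg_le (hof z hz) _
  have h4 := avg_avg hS (fun y => orb GF ⊤ y) horb (fun y _ => self_mem ⊤ y)
    (fun y _ w hw => orb_congr hw) fun y => |avg (orb GF U y) Φ - c|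
  refine (avg_mono hS h1).trans ?_
  rw [h4]
  have h5 : avg (Conjugates Y x) (fun y => |avg (orb GF U y) Φ - c|) ≤
      avg (Conjugates Y x) fun y => r + 1 / r * (avg (orb GF U y) Φ - c) ^ 2 :=
    avg_mono hS fun y _ => by
      set t := avg (orb GF U y) Φ - c
      by_cases ht : |t| ≤ r
      · have : 0 ≤ 1 / r * t ^ 2 := by positivity
        linarith
      · push Not at ht
        have h6 : |t| ≤ 1 / r * t ^ 2 := by
          rw [one_div_mul_eq_div, le_div_iff₀ hr, ← sq_abs, sq]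
          exact mul_le_mul_of_nonneg_left ht.le (abs_nonneg _)
        linarith
  refine h5.trans ?_
  rw [avg_add hS, avg_const hS hne, avg_mul hS, one_div_mul_eq_div]
  gcongr

end Pool.Agent.Q28.AT
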