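import Pool.Agent.Q28.AT.Orb

/-!
# Almost all tuples of conjugate CM points: definitions
-/

namespace Pool.Agent.Q28.AT

open MeasureTheory Pool.Agent.Q28.EQ Pool.Agent.Q28.OF

variable {G : Type} [Group G] {GF : Subgroup G} {n : ℕ}

/-- Known facts on CM points on a modular curve `Y`: the facts `GaloisFacts` (complex multiplication
and class field theory), conjugate points have the same discriminant, there are only finitely many CM
points with bounded discriminant, and the equidistribution on ONE curve (`weyl`): for `disc x → ∞` and
all subgroups `U` of bounded index in the Galois group which are contained in `C` and fix the CM field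
of `x`, the orbits of the CM points under `U` are equidistributed (Duke, Iwaniec), and the averages
over these orbits twisted by a nontrivial character of `U` (`Twist`) tend to zero, uniformly in the
character (bounds for Weyl sums by subconvexity: Michel, Harcos and Michel, Zhang, Venkatesh). -/
structure TwistedFacts (C : Subgroup G) (Y : CMCurve G GF) : Prop extends GaloisFacts C Y where
  disc_smul : ∀ (g : GF) x, Y.disc (g • x) = Y.disc x
  finite_disc : ∀ B : ℕ, {x | Y.disc x ≤ B}.Finite
  weyl : ∀ (N : ℕ) (f : Y.Y → ℝ), Continuous f → HasCompactSupport f → ∀ ε : ℝ, 0 < ε →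
    ∃ B : ℕ, ∀ x, B ≤ Y.disc x → ∀ U : Subgroup G, U ≤ C → U ≤ Y.K x →
      U.index ≠ 0 → U.index ≤ N →
      |avg (orb GF U x) (fun y => f (Y.val y)) - ∫ y, f y ∂Y.m| ≤ ε ∧
      ∀ c : Y.P → ℂ, Twist GF U x c →
        ‖(∑ᶠ y ∈ orb GF U x, c y * f (Y.val y)) / (orb GF U x).ncard‖ ≤ ε

/-- The tuples of conjugates of the coordinates of the special point `x`: all special points `z`
whose coordinate `z j` is a Galois conjugate of `x j`, for all `j` independently. -/
def Conjugates (Y : Fin n → CMCurve G GF) (x : Special Y) : Set (Special Y) :=
  {z | ∀ j, z j ∈ orb GF ⊤ (x j)}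

end Pool.Agent.Q28.AT
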