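import Pool.Agent.Q28.AT.Lim
import Mathlib.Topology.ContinuousMap.SecondCountableSpace

/-!
# Almost all tuples of conjugates: the sets of good tuples
-/

namespace Pool.Agent.Q28.AT

open Filter Topology Finset MeasureTheory Pool.Agent.Q28.EQ Pool.Agent.Q28.OF Pool.Agent.Q155.HK

theorem diag (a : ℕ → ℕ → ℝ) (h : ∀ M, Tendsto (a M) atTop (𝓝 0)) :
    ∃ M : ℕ → ℕ, Tendsto M atTop atTop ∧ Tendsto (fun i => a (M i) i) atTop (𝓝 0) := by
  have h1 : ∀ M : ℕ, ∃ N, ∀ i ≥ N, |a M i| < 1 / ((M : ℝ) + 1) := fun M => by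
    have h2 := (Metric.tendsto_atTop.1 (h M)) (1 / ((M : ℝ) + 1)) (by positivity)
    simpa only [Real.dist_eq, sub_zero] using h2
  choose N hN using h1
  classical
  have hM : Tendsto (fun i => Nat.findGreatest (fun M => N M ≤ i) i) atTop atTop := by
    refine tendsto_atTop.2 fun k => ?_
    filter_upwards [eventually_ge_atTop (max k (N k))] with i hi
    exact Nat.le_findGreatest ((le_max_left _ _).trans hi) ((le_max_right _ _).trans hi)
  refine ⟨_, hM, ?_⟩
  have h2 : ∀ᶠ i in atTop, ‖a (Nat.findGreatest (fun M => N M ≤ i) i) i‖ ≤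
      1 / ((Nat.findGreatest (fun M => N M ≤ i) i : ℝ) + 1) := by
    filter_upwards [eventually_ge_atTop (N 0)] with i hi
    exact (hN _ _ (Nat.findGreatest_spec (P := fun M => N M ≤ i) (Nat.zero_le i) hi)).le
  refine squeeze_zero_norm' h2 ?_
  exact (tendsto_one_div_add_atTop_nhds_zero_nat (𝕜 := ℝ)).comp hM

theorem exists_family (X : Type*) [TopologicalSpace X] [T2Space X] [LocallyCompactSpace X]
    [SecondCountableTopology X] :
    ∃ f : ℕ → X → ℝ, (∀ m, Continuous (f m) ∧ HasCompactSupport (f m)) ∧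
      ∀ g : X → ℝ, Continuous g → HasCompactSupport g → ∀ ε : ℝ, 0 < ε →
        ∃ m, ∀ x, |g x - f m x| ≤ ε := by
  let K : CompactExhaustion X := CompactExhaustion.choice X
  let D : ℕ → Set C(X, ℝ) := fun m => {f | ∀ x, x ∉ K m → f x = 0}
  have h1 : ∀ m, ∃ t : Set (D m), t.Countable ∧ Dense t := fun m =>
    TopologicalSpace.exists_countable_dense (D m)
  choose t ht1 ht2 using h1
  set T : Set (X → ℝ) := ⋃ m, (fun f : D m => (f.1 : X → ℝ)) '' t m with hT
  have hTc : T.Countable := Set.countable_iUnion fun m => (ht1 m).image _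
  have hTn : T.Nonempty := by
    have : Nonempty (D 0) := ⟨⟨0, fun x _ => rfl⟩⟩
    obtain ⟨f, hf⟩ := (ht2 0).nonempty
    exact ⟨_, Set.mem_iUnion.2 ⟨0, f, hf, rfl⟩⟩
  obtain ⟨f, hf⟩ := hTc.exists_eq_range hTn
  refine ⟨f, fun m => ?_, fun g hg hgc ε hε => ?_⟩
  · have h2 : f m ∈ T := hf ▸ ⟨m, rfl⟩
    obtain ⟨k, u, hu, hfu⟩ := Set.mem_iUnion.1 h2
    rw [← hfu]
    exact ⟨u.1.continuous, HasCompactSupport.intro (K.isCompact k) fun x hx => u.2 x hx⟩
  · obtain ⟨k, hk⟩ := K.exists_superset_of_isCompact hgc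
    set G : D k := ⟨⟨g, hg⟩, fun x hx => image_eq_zero_of_notMem_tsupport fun h => hx (hk h)⟩
      with hG
    have h3 : IsOpen {u : D k | Set.MapsTo (G.1 - u.1) (K k) (Metric.ball 0 ε)} := by
      have h4 := ContinuousMap.isOpen_setOfPred_mapsTo (X := X) (Y := ℝ) (K.isCompact k)
        (Metric.isOpen_ball (x := (0 : ℝ)) (ε := ε))
      exact h4.preimage (continuous_const.sub continuous_subtype_val)
    obtain ⟨u, hu1, hu2⟩ := (ht2 k).exists_mem_open h3 ⟨G, fun x _ => by
      simpa using hε⟩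
    have h5 : (u.1 : X → ℝ) ∈ T := Set.mem_iUnion.2 ⟨k, u, hu1, rfl⟩
    rw [hf] at h5
    obtain ⟨m, hm⟩ := h5
    refine ⟨m, fun x => ?_⟩
    rw [hm]
    by_cases hx : x ∈ K k
    · have h6 := hu2 hx
      rw [Metric.mem_ball, Real.dist_eq, sub_zero] at h6
      exact h6.le
    · rw [u.2 x hx]
      have h7 : g x = 0 := G.2 x hx
      rw [h7, sub_zero, abs_zero]
      exact hε.le

/-- Markov's inequality -/
theorem markov {α : Type*} {S : Set α} (hS : S.Finite) (g : α → ℝ)
    (hg : ∀ a, 0 ≤ g a) {r : ℝ} (hr : 0 < r) :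
    (({a ∈ S | r < g a}.ncard : ℕ) : ℝ) / S.ncard ≤ avg S g / r := by
  classical
  rw [avg_eq hS, Set.ncard_eq_toFinset_card _ hS,
    Set.ncard_eq_toFinset_card _ (hS.subset (Set.sep_subset _ _)), div_right_comm]
  refine div_le_div_of_nonneg_right ?_ (Nat.cast_nonneg _)
  rw [le_div_iff₀ hr]
  have h1 : ((hS.subset (Set.sep_subset S fun a => r < g a)).toFinset.card : ℝ) * r =
      ∑ a ∈ (hS.subset (Set.sep_subset S fun a => r < g a)).toFinset, r := by
    rw [Finset.sum_const, nsmul_eq_mul]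
  rw [h1]
  refine (Finset.sum_le_sum fun a ha => ?_).trans
    (Finset.sum_le_sum_of_subset_of_nonneg ?_ fun a _ _ => hg a)
  · rw [Set.Finite.mem_toFinset] at ha
    exact ha.2.le
  · intro a ha
    rw [Set.Finite.mem_toFinset] at ha ⊢
    exact ha.1

variable {G : Type} [Group G] {GF : Subgroup G} {n : ℕ} {C : Subgroup G}
  {Y : Fin n → CMCurve G GF}

theorem good_choice (hC : C ≤ GF) (hCi : C.index ≠ 0) (hY : ∀ j, TwistedFacts C (Y j))
    (x : ℕ → Special Y) (hx : NoConstantCoordinate Y x) :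
    ∃ S : ℕ → Set (Special Y), (∀ i, S i ⊆ Conjugates Y (x i)) ∧
      Tendsto (fun i => ((S i).ncard : ℝ) / (Conjugates Y (x i)).ncard) atTop (𝓝 1) ∧
      ∀ z : ℕ → Special Y, (∀ᶠ i in atTop, z i ∈ S i) → Equidistributed Y z := by
  classical
  have hG : ∀ j, GaloisFacts C (Y j) := fun j => (hY j).toGaloisFacts
  obtain ⟨f, hf, hdense⟩ := exists_family (∀ j, (Y j).Y)
  -- the deviation of the orbit of `z` for the function `f m`
  obtain ⟨D, hD⟩ : ∃ D : ℕ → Special Y → ℝ, ∀ m z, D m z =
      |avg (orb GF ⊤ z) (fun y => f m fun j => (Y j).val (y j)) -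
        ∫ y, f m y ∂(Measure.pi fun j => (Y j).m)| := ⟨_, fun _ _ => rfl⟩
  have hlim : ∀ m, Tendsto (fun i => avg (Conjugates Y (x i)) (D m)) atTop (𝓝 0) := fun m => by
    have := limit hC hCi hY x hx (f m) (hf m).1 (hf m).2
    refine this.congr fun i => ?_
    exact congrArg _ (funext fun z => (hD m z).symm)
  have hfin := fun i => conj_finite hG (x i)
  have hne : ∀ i, (Conjugates Y (x i)).Nonempty := fun i => ⟨x i, self_mem_conj (x i)⟩
  -- the proportion of bad tuples
  set T : ℕ → Special Y → ℝ := fun M z => ∑ m ∈ Finset.range M, D m z with hT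
  have hTlim : ∀ M : ℕ, Tendsto (fun i => avg (Conjugates Y (x i)) (T M) * (M + 1)) atTop
      (𝓝 0) := fun M => by
    have h1 : Tendsto (fun i => ∑ m ∈ Finset.range M, avg (Conjugates Y (x i)) (D m)) atTop
        (𝓝 (∑ m ∈ Finset.range M, (0 : ℝ))) := tendsto_finsetSum _ fun m _ => hlim m
    rw [Finset.sum_const_zero] at h1
    have h2 := h1.mul_const ((M : ℝ) + 1)
    rw [zero_mul] at h2
    refine h2.congr fun i => ?_
    congr 1
    simp only [avg_eq (hfin i), hT]
    rw [Finset.sum_comm, Finset.sum_div]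
  obtain ⟨M, hM1, hM2⟩ := diag _ hTlim
  set S : ℕ → Set (Special Y) := fun i =>
    {z ∈ Conjugates Y (x i) | T (M i) z ≤ 1 / ((M i : ℝ) + 1)} with hS
  refine ⟨S, fun i => Set.sep_subset _ _, ?_, fun z hz g hg hgc => ?_⟩
  · have h1 : ∀ i, ((S i).ncard : ℝ) / (Conjugates Y (x i)).ncard =
        1 - (({z ∈ Conjugates Y (x i) | 1 / ((M i : ℝ) + 1) < T (M i) z}.ncard : ℕ) : ℝ) /
          (Conjugates Y (x i)).ncard := fun i => by
      have hN : ((Conjugates Y (x i)).ncard : ℝ) ≠ 0 := by
        exact_mod_cast ((Set.ncard_pos (hfin i)).2 (hne i)).ne'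
      have h2 : (S i).ncard +
          {z ∈ Conjugates Y (x i) | 1 / ((M i : ℝ) + 1) < T (M i) z}.ncard =
          (Conjugates Y (x i)).ncard := by
        rw [← Set.ncard_union_eq ?_ ((hfin i).subset (Set.sep_subset _ _))
          ((hfin i).subset (Set.sep_subset _ _))]
        · congr 1
          ext z
          simp only [Set.mem_union, Set.mem_ofPred_eq]
          constructor
          · rintro (h | h)
            · exact h.1
            · exact h.1
          · intro h
            rcases le_or_gt (T (M i) z) (1 / ((M i : ℝ) + 1)) with h' | h'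
            · exact Or.inl ⟨h, h'⟩
            · exact Or.inr ⟨h, h'⟩
        · rw [Set.disjoint_left]
          rintro z ⟨-, h⟩ ⟨-, h'⟩
          exact absurd h (not_le.2 h')
      rw [eq_sub_iff_add_eq, ← add_div, ← h2]
      push_cast
      rw [div_self]
      rw [← h2] at hN
      exact_mod_cast hN
    have h3 : Tendsto (fun i =>
        (({z ∈ Conjugates Y (x i) | 1 / ((M i : ℝ) + 1) < T (M i) z}.ncard : ℕ) : ℝ) /
          (Conjugates Y (x i)).ncard) atTop (𝓝 0) := by
      refine squeeze_zero (fun i => by positivity) (fun i => ?_) hM2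
      have h4 := markov (hfin i) (T (M i))
        (fun z => Finset.sum_nonneg fun m _ => by rw [hD]; exact abs_nonneg _)
        (r := 1 / ((M i : ℝ) + 1)) (by positivity)
      rwa [div_div_eq_mul_div, div_one] at h4
    have h5 := h3.const_sub 1
    rw [sub_zero] at h5
    exact h5.congr fun i => (h1 i).symm
  · rw [Metric.tendsto_nhds]
    intro ε hε
    obtain ⟨m, hm⟩ := hdense g hg hgc (ε / 4) (by positivity)
    have hsmall : Tendsto (fun i => 1 / ((M i : ℝ) + 1)) atTop (𝓝 0) :=
      (tendsto_one_div_add_atTop_nhds_zero_nat (𝕜 := ℝ)).comp hM1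
    filter_upwards [hz, hM1.eventually_gt_atTop m,
      hsmall.eventually_lt_const (show (0 : ℝ) < ε / 4 by positivity)] with i hi1 hi2 hi3
    have hof : (orb GF ⊤ (z i)).Finite := (hfin i).subset (by
      rintro _ ⟨k, -, rfl⟩
      exact shift_mem hi1.1 fun _ => k)
    have h6 : D m (z i) ≤ ε / 4 := by
      refine le_trans ?_ hi3.le
      refine le_trans ?_ hi1.2
      exact Finset.single_le_sum (f := fun m => D m (z i))
        (fun m _ => by rw [hD]; exact abs_nonneg _) (Finset.mem_range.2 hi2)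
    rw [hD] at h6
    have h7 := avg_sub_le hof ⟨z i, self_mem ⊤ (z i)⟩ (fun y => g fun j => (Y j).val (y j))
      (fun y => f m fun j => (Y j).val (y j)) (ε / 4) (fun y => hm _)
    have hgint : Integrable g (Measure.pi fun j => (Y j).m) :=
      hg.integrable_of_hasCompactSupport hgc
    have hfint : Integrable (f m) (Measure.pi fun j => (Y j).m) :=
      (hf m).1.integrable_of_hasCompactSupport (hf m).2
    have h8 : |∫ y, g y ∂(Measure.pi fun j => (Y j).m) -
        ∫ y, f m y ∂(Measure.pi fun j => (Y j).m)| ≤ ε / 4 := by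
      rw [← integral_sub hgint hfint, ← Real.norm_eq_abs]
      refine (norm_integral_le_of_norm_le_const (C := ε / 4)
        (Filter.Eventually.of_forall fun y => ?_)).trans ?_
      · rw [Real.norm_eq_abs]; exact hm y
      · simp
    rw [Real.dist_eq]
    rw [abs_le] at h6 h7 h8
    rw [abs_lt]
    constructor <;> linarith [h6.1, h6.2, h7.1, h7.2, h8.1, h8.2]

end Pool.Agent.Q28.AT
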