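import Mathlib

/-!
# Correlations of functions on finite abelian groups with small Fourier coefficients
-/

namespace Pool.Agent.Q28.AT

open Finset
open scoped ComplexConjugate

variable {α : Type*} [AddCommGroup α] [Fintype α]

/-- mean value of a real function -/
noncomputable def mean {β : Type*} [Fintype β] (f : β → ℝ) : ℝ := (∑ a, f a) / Fintype.card β

/-- Fourier coefficients -/
noncomputable def four (F : α → ℝ) (ψ : AddChar α ℂ) : ℂ :=
  (∑ a, ψ a * F a) / Fintype.card α

theorem card_ne : (Fintype.card α : ℂ) ≠ 0 := by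
  exact_mod_cast Fintype.card_ne_zero

theorem card_pos' : (0 : ℝ) < Fintype.card α := by
  exact_mod_cast Fintype.card_pos

theorem parseval (F : α → ℝ) :
    ∑ ψ : AddChar α ℂ, ‖four F ψ‖ ^ 2 = mean fun a => F a ^ 2 := by
  classical
  have h1 : ∀ ψ : AddChar α ℂ, ((‖four F ψ‖ ^ 2 : ℝ) : ℂ) =
      (∑ a, ∑ b, (F a * F b : ℂ) * ψ (a - b)) / (Fintype.card α) ^ 2 := fun ψ => by
    rw [Complex.ofReal_pow, ← Complex.mul_conj', four, map_div₀, map_sum, Complex.conj_natCast,
      div_mul_div_comm, ← sq, Finset.sum_mul_sum]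
    congr 1
    refine Finset.sum_congr rfl fun a _ => Finset.sum_congr rfl fun b _ => ?_
    rw [map_mul, Complex.conj_ofReal, ← AddChar.map_neg_eq_conj, sub_eq_add_neg,
      AddChar.map_add_eq_mul]
    ring
  have h2 : ((∑ ψ : AddChar α ℂ, ‖four F ψ‖ ^ 2 : ℝ) : ℂ) = ((mean fun a => F a ^ 2 : ℝ) : ℂ) := by
    rw [Complex.ofReal_sum]
    simp only [h1]
    rw [← Finset.sum_div, Finset.sum_comm]
    have h3 : ∀ a : α, ∑ ψ : AddChar α ℂ, ∑ b, (F a * F b : ℂ) * ψ (a - b) =
        F a ^ 2 * Fintype.card α := fun a => by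
      rw [Finset.sum_comm]
      have h4 : ∀ b, ∑ ψ : AddChar α ℂ, (F a * F b : ℂ) * ψ (a - b) =
          if b = a then (F a * F b : ℂ) * Fintype.card α else 0 := fun b => by
        rw [← Finset.mul_sum, AddChar.sum_apply_eq_ite]
        by_cases h : b = a
        · rw [if_pos h, if_pos (sub_eq_zero.2 h.symm)]
        · rw [if_neg h, if_neg fun h' => h (sub_eq_zero.1 h').symm, mul_zero]
      simp only [h4]
      rw [Finset.sum_ite_eq' Finset.univ a, if_pos (Finset.mem_univ a)]
      ring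
    simp only [h3]
    rw [← Finset.sum_mul, mean, Complex.ofReal_div, Complex.ofReal_sum, Complex.ofReal_natCast]
    have := card_ne (α := α)
    field_simp
    push_cast
    rfl
  exact_mod_cast h2

/-- correlations -/
noncomputable def corr (f : α → ℝ) (ρ : α) : ℝ := mean fun σ => f σ * f (σ + ρ)

theorem four_corr (f : α → ℝ) (ψ : AddChar α ℂ) : four (corr f) ψ = (‖four f ψ‖ ^ 2 : ℝ) := by
  rw [Complex.ofReal_pow, ← Complex.mul_conj', four, four, map_div₀, map_sum,
    Complex.conj_natCast, div_mul_div_comm, ← sq, Finset.sum_mul_sum]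
  have h1 : ∀ ρ, ψ ρ * (corr f ρ : ℂ) = (∑ σ, ψ ρ * (f σ * f (σ + ρ))) / Fintype.card α :=
    fun ρ => by
      rw [corr, mean, Complex.ofReal_div, Complex.ofReal_sum, Complex.ofReal_natCast,
        ← Finset.mul_sum, mul_div_assoc]
      push_cast
      rfl
  simp only [h1]
  rw [← Finset.sum_div, div_div, ← sq]
  congr 1
  rw [Finset.sum_comm]
  rw [Finset.sum_comm (f := fun a b => ψ a * (f a : ℂ) * (starRingEnd ℂ) (ψ b * (f b : ℂ)))]
  refine Finset.sum_congr rfl fun σ _ => ?_
  refine Fintype.sum_equiv (Equiv.addLeft σ) _ _ fun ρ => ?_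
  rw [Equiv.coe_addLeft, map_mul, Complex.conj_ofReal, ← AddChar.map_neg_eq_conj,
    AddChar.map_add_eq_mul]
  have h2 : ψ σ * ψ (-σ) = 1 := by
    rw [← AddChar.map_add_eq_mul, add_neg_cancel, AddChar.map_zero_eq_one]
  linear_combination (-(ψ ρ * (f σ * f (σ + ρ)))) * h2

end Pool.Agent.Q28.AT
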