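import Pool.Agent.Q28.AT.Box
import Pool.Agent.Q155.HK.Dens

/-!
# Equidistribution of the Galois orbits of almost all tuples of conjugates
-/

namespace Pool.Agent.Q28.AT

open Filter Topology Finset MeasureTheory Pool.Agent.Q28.EQ Pool.Agent.Q28.OF Pool.Agent.Q155.HK

variable {G : Type} [Group G] {GF : Subgroup G} {n : ℕ} {C : Subgroup G}
  {Y : Fin n → CMCurve G GF}

theorem disc_large (hY : ∀ j, TwistedFacts C (Y j)) (x : ℕ → Special Y)
    (hx : NoConstantCoordinate Y x) (B : ℕ) : ∀ᶠ i in atTop, ∀ j, B ≤ (Y j).disc (x i j) := by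
  rw [eventually_all]
  intro j
  have h1 : {i | (Y j).disc (x i j) ≤ B}.Finite := by
    have h2 : {i | (Y j).disc (x i j) ≤ B} ⊆
        ⋃ p ∈ {p | (Y j).disc p ≤ B}, {i | x i j = p} := by
      intro i hi
      simp only [Set.mem_iUnion]
      exact ⟨x i j, hi, rfl⟩
    exact (Set.Finite.biUnion ((hY j).finite_disc B) fun p _ => hx j p).subset h2
  rw [← Nat.cofinite_eq_atTop]
  filter_upwards [h1.compl_mem_cofinite] with i hi
  by_contra h
  exact hi (Set.mem_ofPred.mpr (not_le.mp h).le)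

theorem exists_bound (φ : ∀ j, (Y j).Y → ℝ) (hφ : ∀ j, Continuous (φ j) ∧ HasCompactSupport (φ j)) :
    ∃ M : ℝ, 1 ≤ M ∧ ∀ j y, |φ j y| ≤ M := by
  have h1 : ∀ j, ∃ M : ℝ, ∀ y, |φ j y| ≤ M := fun j => by
    obtain ⟨M, hM⟩ := (hφ j).2.exists_bound_of_continuous (hφ j).1
    exact ⟨M, fun y => by rw [← Real.norm_eq_abs]; exact hM y⟩
  choose M hM using h1
  refine ⟨1 + ∑ j, |M j|, ?_, fun j y => ?_⟩
  · have : 0 ≤ ∑ j, |M j| := Finset.sum_nonneg fun j _ => abs_nonneg _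
    linarith
  · have h2 : |M j| ≤ ∑ j, |M j| :=
      Finset.single_le_sum (f := fun j => |M j|) (fun i _ => abs_nonneg _) (Finset.mem_univ j)
    linarith [hM j y, le_abs_self (M j)]

/-- products of functions of one coordinate -/
theorem prod_limit (hC : C ≤ GF) (hCi : C.index ≠ 0) (hY : ∀ j, TwistedFacts C (Y j))
    (x : ℕ → Special Y) (hx : NoConstantCoordinate Y x) (φ : ∀ j, (Y j).Y → ℝ)
    (hφ : ∀ j, Continuous (φ j) ∧ HasCompactSupport (φ j)) :
    Tendsto (fun i => avg (Conjugates Y (x i)) fun z =>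
      |avg (orb GF ⊤ z) (fun y => ∏ j, φ j ((Y j).val (y j))) - ∏ j, ∫ y, φ j y ∂(Y j).m|)
      atTop (𝓝 0) := by
  classical
  rw [Metric.tendsto_nhds]
  intro e he
  obtain ⟨M, hM1, hM⟩ := exists_bound φ hφ
  have hM0 : 0 ≤ M := zero_le_one.trans hM1
  set ε0 := e / 2 with hε0
  have hε0' : 0 < ε0 := half_pos he
  obtain ⟨δ, hδ, hprod⟩ := prod_near (fun j => ∫ y, φ j y ∂(Y j).m) (ε0 / 4) (by positivity)
  set ε1 := ε0 ^ 2 / (8 * (n * M ^ (2 * n + 1) + 1)) with hε1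
  have hε1' : 0 < ε1 := by positivity
  have hB : ∀ j, ∃ B : ℕ, ∀ p, B ≤ (Y j).disc p → ∀ U : Subgroup G, U ≤ C → U ≤ (Y j).K p →
      U.index ≠ 0 → U.index ≤ C.index * 2 ^ n →
      |avg (orb GF U p) (fun y => φ j ((Y j).val y)) - ∫ y, φ j y ∂(Y j).m| ≤ min δ ε1 ∧
      ∀ c : (Y j).P → ℂ, Twist GF U p c →
        ‖(∑ᶠ y ∈ orb GF U p, c y * φ j ((Y j).val y)) / (orb GF U p).ncard‖ ≤ min δ ε1 :=
    fun j => (hY j).weyl _ (φ j) (hφ j).1 (hφ j).2 _ (lt_min hδ hε1')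
  choose B hB using hB
  filter_upwards [disc_large hY x hx (∑ j, B j)] with i hi
  have hdisc : ∀ j, ∀ p ∈ orb GF ⊤ (x i j), B j ≤ (Y j).disc p := by
    rintro j _ ⟨g, -, rfl⟩
    rw [(hY j).disc_smul]
    exact (Finset.single_le_sum (f := B) (fun _ _ => Nat.zero_le _) (Finset.mem_univ j)).trans
      (hi j)
  have hG : ∀ j, GaloisFacts C (Y j) := fun j => (hY j).toGaloisFacts
  have hidx := index_inf_pow C (fun k => (Y k).K (x i k)) hCi
    fun k => ((hG k).dihedral (x i k)).index_two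
  rw [Fintype.card_fin] at hidx
  have hUK : ∀ j, ∀ p ∈ orb GF ⊤ (x i j), (C ⊓ ⨅ k, (Y k).K (x i k)) ≤ (Y j).K p := by
    rintro j _ ⟨g, -, rfl⟩
    rw [(hG j).K_smul]
    exact inf_le_right.trans (iInf_le _ j)
  have h2 := second_moment hC hG (x i) (fun j p => φ j ((Y j).val p)) (κ := ε0 / 4) (ε := ε1)
    (c := ∏ j, ∫ y, φ j y ∂(Y j).m) hM1 (fun j p => hM j _) hε1'.le
    (fun z hz => hprod _ fun j => ((hB j (z j) (hdisc j _ (hz j)) _ inf_le_left
      (hUK j _ (hz j)) hidx.1 hidx.2).1).trans (min_le_left _ _))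
    (fun j p hp t ht => ((hB j p (hdisc j _ hp) _ inf_le_left (hUK j _ hp) hidx.1 hidx.2).2 t
      ht).trans (min_le_right _ _))
  have h3 := first_moment hG (x i) (fun y => ∏ j, φ j ((Y j).val (y j))) (r := ε0 / 2)
    (half_pos hε0') h2
  have hne : (Conjugates Y (x i)).Nonempty := ⟨x i, self_mem_conj (x i)⟩
  have h0 : 0 ≤ avg (Conjugates Y (x i)) fun z =>
      |avg (orb GF ⊤ z) (fun y => ∏ j, φ j ((Y j).val (y j))) - ∏ j, ∫ y, φ j y ∂(Y j).m| := by
    have h4 := avg_mono (conj_finite hG (x i)) (f := fun _ => (0 : ℝ)) (g := fun z =>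
      |avg (orb GF ⊤ z) (fun y => ∏ j, φ j ((Y j).val (y j))) - ∏ j, ∫ y, φ j y ∂(Y j).m|)
      fun z _ => abs_nonneg _
    rwa [avg_const (conj_finite hG (x i)) hne] at h4
  rw [Real.dist_eq, sub_zero, abs_of_nonneg h0]
  refine lt_of_le_of_lt h3 ?_
  have h5 : n * M ^ (2 * n + 1) * ε1 ≤ ε0 ^ 2 / 8 := by
    rw [hε1, mul_div_assoc', div_le_div_iff₀ (by positivity) (by norm_num)]
    have h6 : 0 ≤ n * M ^ (2 * n + 1) := by positivity
    nlinarith [sq_nonneg ε0]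
  have h7 : (n * M ^ (2 * n + 1) * ε1 + (ε0 / 4) ^ 2) / (ε0 / 2) ≤ ε0 / 2 := by
    rw [div_le_iff₀ (half_pos hε0')]
    nlinarith
  have h8 : ε0 < e := by
    rw [hε0]
    linarith
  linarith

/-- all continuous functions with compact support -/
theorem limit (hC : C ≤ GF) (hCi : C.index ≠ 0) (hY : ∀ j, TwistedFacts C (Y j))
    (x : ℕ → Special Y) (hx : NoConstantCoordinate Y x) (f : (∀ j, (Y j).Y) → ℝ)
    (hf : Continuous f) (hc : HasCompactSupport f) :
    Tendsto (fun i => avg (Conjugates Y (x i)) fun z =>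
      |avg (orb GF ⊤ z) (fun y => f fun j => (Y j).val (y j)) -
        ∫ y, f y ∂(Measure.pi fun j => (Y j).m)|) atTop (𝓝 0) := by
  have hG : ∀ j, GaloisFacts C (Y j) := fun j => (hY j).toGaloisFacts
  rw [Metric.tendsto_nhds]
  intro ε hε
  obtain ⟨ι, i1, c, g, hg, hfg⟩ := Pool.Agent.Q155.HK.dens f hf hc (ε / 4) (by positivity)
  have hint : ∀ a, Integrable (fun y : (∀ j, (Y j).Y) => ∏ j, g a j (y j))
      (Measure.pi fun j => (Y j).m) := fun a =>
    Integrable.fintype_prod_dep fun j => (hg a j).1.integrable_of_hasCompactSupport (hg a j).2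
  have hfint : Integrable f (Measure.pi fun j => (Y j).m) :=
    hf.integrable_of_hasCompactSupport hc
  have hI : |∫ y, f y ∂(Measure.pi fun j => (Y j).m) -
      ∑ a, c a * ∏ j, ∫ y, g a j y ∂(Y j).m| ≤ ε / 4 := by
    have e1 : ∑ a, c a * ∏ j, ∫ y, g a j y ∂(Y j).m =
        ∫ y, ∑ a, c a * ∏ j, g a j (y j) ∂(Measure.pi fun j => (Y j).m) := by
      rw [integral_finsetSum _ fun a _ => (hint a).const_mul (c a)]
      refine Finset.sum_congr rfl fun a _ => ?_
      rw [integral_const_mul, integral_fintype_prod_eq_prod]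
    rw [e1, ← integral_sub hfint (integrable_finsetSum _ fun a _ => (hint a).const_mul (c a))]
    rw [← Real.norm_eq_abs]
    refine (norm_integral_le_of_norm_le_const (C := ε / 4)
      (Filter.Eventually.of_forall fun y => ?_)).trans ?_
    · rw [Real.norm_eq_abs]; exact hfg y
    · simp
  have hev : Tendsto (fun i => ∑ a, |c a| * avg (Conjugates Y (x i)) fun z =>
      |avg (orb GF ⊤ z) (fun y => ∏ j, g a j ((Y j).val (y j))) - ∏ j, ∫ y, g a j y ∂(Y j).m|)
      atTop (𝓝 (∑ a, |c a| * 0)) :=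
    tendsto_finsetSum _ fun a _ =>
      Tendsto.const_mul _ (prod_limit hC hCi hY x hx (g a) (hg a))
  have hz : ∑ a, |c a| * (0 : ℝ) = 0 := by simp
  rw [hz] at hev
  filter_upwards [Metric.tendsto_nhds.mp hev (ε / 4) (by positivity)] with i h1
  have hS := conj_finite hG (x i)
  have hne : (Conjugates Y (x i)).Nonempty := ⟨x i, self_mem_conj (x i)⟩
  have hof : ∀ z ∈ Conjugates Y (x i), (orb GF ⊤ z).Finite := fun z hz' => hS.subset (by
    rintro _ ⟨k, -, rfl⟩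
    exact shift_mem hz' fun _ => k)
  have h2 : avg (Conjugates Y (x i)) (fun z =>
      |avg (orb GF ⊤ z) (fun y => f fun j => (Y j).val (y j)) -
        ∫ y, f y ∂(Measure.pi fun j => (Y j).m)|) ≤
      avg (Conjugates Y (x i)) fun z => ε / 2 + ∑ a, |c a| *
        |avg (orb GF ⊤ z) (fun y => ∏ j, g a j ((Y j).val (y j))) -
          ∏ j, ∫ y, g a j y ∂(Y j).m| := avg_mono hS fun z hz' => by
    have h3 := avg_sub_le (hof z hz') ⟨z, self_mem ⊤ z⟩ (fun y => f fun j => (Y j).val (y j))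
      (fun y => ∑ a, c a * ∏ j, g a j ((Y j).val (y j))) (ε / 4) (fun y => hfg _)
    rw [avg_lin (hof z hz') c fun a y => ∏ j, g a j ((Y j).val (y j))] at h3
    have h4 : |∑ a, c a * avg (orb GF ⊤ z) (fun y => ∏ j, g a j ((Y j).val (y j))) -
        ∑ a, c a * ∏ j, ∫ y, g a j y ∂(Y j).m| ≤ ∑ a, |c a| *
        |avg (orb GF ⊤ z) (fun y => ∏ j, g a j ((Y j).val (y j))) -
          ∏ j, ∫ y, g a j y ∂(Y j).m| := by
      rw [← Finset.sum_sub_distrib]
      refine (Finset.abs_sum_le_sum_abs _ _).trans (Finset.sum_le_sum fun a _ => ?_)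
      rw [← mul_sub, abs_mul]
    have h5 := abs_sub_le (avg (orb GF ⊤ z) fun y => f fun j => (Y j).val (y j))
      (∑ a, c a * avg (orb GF ⊤ z) (fun y => ∏ j, g a j ((Y j).val (y j))))
      (∫ y, f y ∂(Measure.pi fun j => (Y j).m))
    have h6 := abs_sub_le
      (∑ a, c a * avg (orb GF ⊤ z) (fun y => ∏ j, g a j ((Y j).val (y j))))
      (∑ a, c a * ∏ j, ∫ y, g a j y ∂(Y j).m) (∫ y, f y ∂(Measure.pi fun j => (Y j).m))
    rw [abs_sub_comm] at hI
    linarith
  have h0 : 0 ≤ avg (Conjugates Y (x i)) fun z =>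
      |avg (orb GF ⊤ z) (fun y => f fun j => (Y j).val (y j)) -
        ∫ y, f y ∂(Measure.pi fun j => (Y j).m)| := by
    have h4 := avg_mono hS (f := fun _ => (0 : ℝ)) (g := fun z =>
      |avg (orb GF ⊤ z) (fun y => f fun j => (Y j).val (y j)) -
        ∫ y, f y ∂(Measure.pi fun j => (Y j).m)|) fun z _ => abs_nonneg _
    rwa [avg_const hS hne] at h4
  rw [Real.dist_eq, sub_zero, abs_of_nonneg h0]
  refine lt_of_le_of_lt h2 ?_
  rw [avg_add hS, avg_const hS hne, avg_lin hS (fun a => |c a|) fun a z =>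
    |avg (orb GF ⊤ z) (fun y => ∏ j, g a j ((Y j).val (y j))) - ∏ j, ∫ y, g a j y ∂(Y j).m|]
  rw [Real.dist_eq, sub_zero] at h1
  have h7 := (abs_lt.1 h1).2
  linarith

end Pool.Agent.Q28.AT
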