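import Pool.Agent.Q28.AT.Var
import Pool.Agent.Q28.OF.Defs
import Pool.Agent.Q155.HK.Avg

/-!
# Orbits of abelian groups and their characters
-/

namespace Pool.Agent.Q28.AT

open Finset Pool.Agent.Q28.EQ Pool.Agent.Q155.HK

variable {G : Type} [Group G] {GF : Subgroup G}

/-- A twist on the orbit of `x` under `U`: a function `c` on the orbit with values of absolute value
one which is an eigenfunction of the elements of `U`, and not constant. -/
def Twist (GF U : Subgroup G) {P : Type*} [MulAction GF P] (x : P) (c : P → ℂ) : Prop :=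
  (∀ y ∈ orb GF U x, ‖c y‖ = 1) ∧
  (∀ g : GF, (g : G) ∈ U → ∃ l : ℂ, ∀ y ∈ orb GF U x, c (g • y) = l * c y) ∧
  ∃ y ∈ orb GF U x, c y ≠ c x

section Lift

variable {U : Subgroup G} (hU : U ≤ GF) {A : Type*} [CommGroup A] [Fintype A] {π : U →* A}
  (hπ : Function.Surjective π)

/-- representatives -/
noncomputable def lift (a : A) : GF :=
  ⟨((Function.surjInv hπ a : U) : G), hU (Function.surjInv hπ a).2⟩

/-- the kernel fixes the point -/
def Fixes (π : U →* A) {P : Type*} [MulAction GF P] (z : P) : Prop :=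
  ∀ u : U, π u = 1 → (⟨u, hU u.2⟩ : GF) • z = z

variable {P : Type*} [MulAction GF P] {z : P}

omit [Fintype A] in
theorem lift_mem (a : A) : ((lift hU hπ a : GF) : G) ∈ U := (Function.surjInv hπ a).2

omit [Fintype A] in
theorem smul_congr (hz : Fixes hU π z) {u v : U} (h : π u = π v) :
    (⟨u, hU u.2⟩ : GF) • z = (⟨v, hU v.2⟩ : GF) • z := by
  have h1 : π (v⁻¹ * u) = 1 := by rw [map_mul, map_inv, h, inv_mul_cancel]
  have h2 := hz _ h1
  have h3 : (⟨((v⁻¹ * u : U) : G), hU (v⁻¹ * u).2⟩ : GF) =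
      (⟨v, hU v.2⟩ : GF)⁻¹ * (⟨u, hU u.2⟩ : GF) := rfl
  rw [h3, mul_smul, inv_smul_eq_iff] at h2
  exact h2

omit [Fintype A] in
theorem lift_π (hz : Fixes hU π z) (u : U) :
    lift hU hπ (π u) • z = (⟨u, hU u.2⟩ : GF) • z :=
  smul_congr hU hz (Function.surjInv_eq hπ (π u))

omit [Fintype A] in
theorem Fixes.smul (hz : Fixes hU π z) (u : U) : Fixes hU π ((⟨u, hU u.2⟩ : GF) • z) :=
  fun v hv => by
    have h1 : π (u⁻¹ * v * u) = 1 := by
      rw [map_mul, map_mul, hv, mul_one, map_inv, inv_mul_cancel]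
    have h2 := hz _ h1
    have h3 : (⟨((u⁻¹ * v * u : U) : G), hU (u⁻¹ * v * u).2⟩ : GF) =
        (⟨u, hU u.2⟩ : GF)⁻¹ * (⟨v, hU v.2⟩ : GF) * (⟨u, hU u.2⟩ : GF) := rfl
    rw [h3, mul_smul, mul_smul, inv_smul_eq_iff] at h2
    exact h2

omit [Fintype A] in
theorem Fixes.lift (hz : Fixes hU π z) (a : A) :
    Fixes hU π (Pool.Agent.Q28.AT.lift hU hπ a • z) := hz.smul hU (Function.surjInv hπ a)

omit [Fintype A] in
theorem lift_mul (hz : Fixes hU π z) (a b : A) :
    lift hU hπ (a * b) • z = lift hU hπ a • lift hU hπ b • z := by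
  obtain ⟨u, rfl⟩ := hπ a
  obtain ⟨v, rfl⟩ := hπ b
  rw [lift_π hU hπ hz v, lift_π hU hπ (hz.smul hU v) u, ← map_mul, lift_π hU hπ hz, smul_smul]
  rfl

omit [Fintype A] in
theorem mem_orb_iff (hz : Fixes hU π z) (y : P) :
    y ∈ orb GF U z ↔ ∃ a : A, lift hU hπ a • z = y := by
  constructor
  · rintro ⟨g, hg, rfl⟩
    exact ⟨π ⟨g, hg⟩, lift_π hU hπ hz ⟨g, hg⟩⟩
  · rintro ⟨a, rfl⟩
    exact ⟨_, lift_mem hU hπ a, rfl⟩

include hπ in
theorem orb_fin' (hz : Fixes hU π z) : (orb GF U z).Finite := by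
  have : orb GF U z = Set.range fun a : A => lift hU hπ a • z := by
    ext y
    rw [mem_orb_iff hU hπ hz]
    rfl
  rw [this]
  exact Set.finite_range _

/-- averages over the orbit are averages over the finite abelian group -/
theorem avg_lift {K : Type*} [Field K] [CharZero K] (hz : Fixes hU π z) (g : P → K) :
    (∑ a : A, g (lift hU hπ a • z)) / Fintype.card A =
      (∑ᶠ y ∈ orb GF U z, g y) / (orb GF U z).ncard := by
  classical
  have hfin := orb_fin' hU hπ hz
  rw [finsum_mem_eq_finite_toFinset_sum g hfin, Set.ncard_eq_toFinset_card _ hfin]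
  set T := hfin.toFinset with hT
  have hmaps : ∀ a ∈ (univ : Finset A), lift hU hπ a • z ∈ T := fun a _ => by
    rw [hT, Set.Finite.mem_toFinset, mem_orb_iff hU hπ hz]
    exact ⟨a, rfl⟩
  set k := (univ.filter fun a : A => lift hU hπ a • z = z).card with hk
  have hfib : ∀ y ∈ T, (univ.filter fun a : A => lift hU hπ a • z = y).card = k := by
    intro y hy
    rw [hT, Set.Finite.mem_toFinset, mem_orb_iff hU hπ hz] at hy
    obtain ⟨b, rfl⟩ := hy
    symm
    refine Finset.card_equiv (Equiv.mulLeft b) fun a => ?_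
    rw [Finset.mem_filter, Finset.mem_filter, Equiv.coe_mulLeft, lift_mul hU hπ hz]
    simp
  have h1 : ∑ a : A, g (lift hU hπ a • z) = k * ∑ y ∈ T, g y := by
    rw [← Finset.sum_fiberwise_of_maps_to hmaps, Finset.mul_sum]
    refine Finset.sum_congr rfl fun y hy => ?_
    have h2 : ∀ a ∈ univ.filter (fun a : A => lift hU hπ a • z = y),
        g (lift hU hπ a • z) = g y := fun a ha => by rw [(Finset.mem_filter.1 ha).2]
    rw [Finset.sum_congr rfl h2, Finset.sum_const, hfib y hy, nsmul_eq_mul]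
  have h3 : (Fintype.card A : K) = k * T.card := by
    have h4 := Finset.card_eq_sum_card_fiberwise hmaps
    rw [Finset.sum_congr rfl hfib, Finset.sum_const, smul_eq_mul, Finset.card_univ] at h4
    rw [h4]
    push_cast
    ring
  have hk0 : (k : K) ≠ 0 := by
    have : 0 < k := by
      rw [hk, Finset.card_pos]
      refine ⟨1, Finset.mem_filter.2 ⟨Finset.mem_univ _, ?_⟩⟩
      have h5 := lift_π hU hπ hz 1
      rw [map_one] at h5
      rw [h5]
      exact one_smul _ z
    exact_mod_cast this.ne'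
  rw [h1, h3, mul_div_mul_left _ _ hk0]

theorem avg_lift_real (hz : Fixes hU π z) (g : P → ℝ) :
    avg (orb GF U z) g = mean fun a : A => g (lift hU hπ a • z) := (avg_lift hU hπ hz g).symm

/-- Fourier coefficients along an orbit are small if the twisted averages are -/
theorem four_le (hz : Fixes hU π z) (g : P → ℝ) {ε : ℝ} (hε : 0 ≤ ε)
    (h : ∀ c : P → ℂ, Twist GF U z c →
      ‖(∑ᶠ y ∈ orb GF U z, c y * g y) / (orb GF U z).ncard‖ ≤ ε)
    (ψ : AddChar (Additive A) ℂ) (hψ : ψ ≠ 0) :
    ‖four (fun a : Additive A => g (lift hU hπ a.toMul • z)) ψ‖ ≤ ε := by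
  classical
  by_cases hs : ∀ a : A, lift hU hπ a • z = z → ψ (Additive.ofMul a) = 1
  · -- the character defines a twist
    have hwd : ∀ a b : A, lift hU hπ a • z = lift hU hπ b • z →
        ψ (Additive.ofMul a) = ψ (Additive.ofMul b) := fun a b hab => by
      have h1 : lift hU hπ (b⁻¹ * a) • z = z := by
        rw [lift_mul hU hπ hz, hab, ← lift_mul hU hπ hz, inv_mul_cancel]
        have h5 := lift_π hU hπ hz 1
        rw [map_one] at h5
        rw [h5]
        exact one_smul _ z
      have h2 := hs _ h1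
      rw [ofMul_mul, AddChar.map_add_eq_mul, ofMul_inv] at h2
      have h3 : ψ (Additive.ofMul b) * ψ (-Additive.ofMul b) = 1 := by
        rw [← AddChar.map_add_eq_mul, add_neg_cancel, AddChar.map_zero_eq_one]
      calc ψ (Additive.ofMul a) = (ψ (Additive.ofMul b) * ψ (-Additive.ofMul b)) *
            ψ (Additive.ofMul a) := by rw [h3, one_mul]
        _ = ψ (Additive.ofMul b) * (ψ (-Additive.ofMul b) * ψ (Additive.ofMul a)) := by ring
        _ = ψ (Additive.ofMul b) := by rw [h2, mul_one]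
    set c : P → ℂ := fun y => if hy : ∃ a : A, lift hU hπ a • z = y then
      ψ (Additive.ofMul hy.choose) else 0 with hc
    have hca : ∀ a : A, c (lift hU hπ a • z) = ψ (Additive.ofMul a) := fun a => by
      have hy : ∃ b : A, lift hU hπ b • z = lift hU hπ a • z := ⟨a, rfl⟩
      rw [hc]
      simp only [dif_pos hy]
      exact hwd _ _ hy.choose_spec
    have hcz : c z = 1 := by
      have h5 := lift_π hU hπ hz 1
      rw [map_one] at h5
      have h6 : lift hU hπ (1 : A) • z = z := by
        rw [h5]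
        exact one_smul _ z
      have h7 := hca 1
      rw [h6, ofMul_one, AddChar.map_zero_eq_one] at h7
      exact h7
    have htw : Twist GF U z c := by
      refine ⟨fun y hy => ?_, fun k hk => ?_, ?_⟩
      · obtain ⟨a, rfl⟩ := (mem_orb_iff hU hπ hz y).1 hy
        rw [hca, AddChar.norm_apply]
      · refine ⟨ψ (Additive.ofMul (π ⟨k, hk⟩)), fun y hy => ?_⟩
        obtain ⟨a, rfl⟩ := (mem_orb_iff hU hπ hz y).1 hy
        have h1 : k • lift hU hπ a • z = lift hU hπ (π ⟨k, hk⟩ * a) • z := by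
          rw [lift_mul hU hπ hz, lift_π hU hπ (hz.lift hU hπ a)]
        rw [h1, hca, hca, ofMul_mul, AddChar.map_add_eq_mul]
      · obtain ⟨a, ha⟩ := (AddChar.ne_one_iff (ψ := ψ)).1 hψ
        refine ⟨lift hU hπ a.toMul • z, ⟨_, lift_mem hU hπ _, rfl⟩, ?_⟩
        rw [hca, hcz]
        exact ha
    have h8 := h c htw
    have h9 := avg_lift hU hπ hz fun y => c y * (g y : ℂ)
    rw [← h9] at h8
    have h10 : four (fun a : Additive A => g (lift hU hπ a.toMul • z)) ψ =
        (∑ a : A, c (lift hU hπ a • z) * (g (lift hU hπ a • z) : ℂ)) / Fintype.card A := by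
      rw [four, Fintype.card_additive]
      congr 1
      refine Fintype.sum_equiv Additive.toMul _ _ fun a => ?_
      rw [hca]
      rfl
    rw [h10]
    exact h8
  · -- the coefficient vanishes
    push Not at hs
    obtain ⟨s, hs1, hs2⟩ := hs
    have h1 : four (fun a : Additive A => g (lift hU hπ a.toMul • z)) ψ = 0 := by
      have h2 : (∑ a : Additive A, ψ a * (g (lift hU hπ a.toMul • z) : ℂ)) =
          ψ (Additive.ofMul s) * ∑ a : Additive A, ψ a * (g (lift hU hπ a.toMul • z) : ℂ) := by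
        rw [Finset.mul_sum]
        symm
        refine Fintype.sum_equiv (Equiv.addLeft (Additive.ofMul s)) _ _ fun a => ?_
        rw [Equiv.coe_addLeft, AddChar.map_add_eq_mul, toMul_add, toMul_ofMul, mul_comm s,
          lift_mul hU hπ hz, hs1, mul_assoc]
      have h3 : (∑ a : Additive A, ψ a * (g (lift hU hπ a.toMul • z) : ℂ)) = 0 := by
        have h4 : (1 - ψ (Additive.ofMul s)) *
            (∑ a : Additive A, ψ a * (g (lift hU hπ a.toMul • z) : ℂ)) = 0 := by
          rw [sub_mul, one_mul, ← h2, sub_self]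
        rcases mul_eq_zero.1 h4 with h5 | h5
        · exact absurd (sub_eq_zero.1 h5).symm hs2
        · exact h5
      rw [four, h3, zero_div]
    rw [h1, norm_zero]
    exact hε

end Lift

end Pool.Agent.Q28.AT
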