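import Pool.Agent.Q28.AT.Fourier

/-!
# The variance of averages over translates
-/

namespace Pool.Agent.Q28.AT

open Finset

section Mean

variable {β : Type*} [Fintype β]

theorem mean_nonneg {f : β → ℝ} (h : ∀ a, 0 ≤ f a) : 0 ≤ mean f :=
  div_nonneg (Finset.sum_nonneg fun a _ => h a) (Nat.cast_nonneg _)

theorem mean_mono {f g : β → ℝ} (h : ∀ a, f a ≤ g a) : mean f ≤ mean g :=
  div_le_div_of_nonneg_right (Finset.sum_le_sum fun a _ => h a) (Nat.cast_nonneg _)

theorem mean_add (f g : β → ℝ) : mean (fun a => f a + g a) = mean f + mean g := by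
  rw [mean, mean, mean, Finset.sum_add_distrib, add_div]

theorem mean_sub (f g : β → ℝ) : mean (fun a => f a - g a) = mean f - mean g := by
  rw [mean, mean, mean, Finset.sum_sub_distrib, sub_div]

theorem mean_mul_left (c : ℝ) (f : β → ℝ) : mean (fun a => c * f a) = c * mean f := by
  rw [mean, mean, ← Finset.mul_sum, mul_div_assoc]

theorem mean_const [Nonempty β] (c : ℝ) : mean (fun _ : β => c) = c := by
  rw [mean, Finset.sum_const, nsmul_eq_mul, Finset.card_univ]
  have : (Fintype.card β : ℝ) ≠ 0 := by exact_mod_cast Fintype.card_ne_zero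
  field_simp

theorem mean_sum {ι : Type*} (s : Finset ι) (f : ι → β → ℝ) :
    mean (fun a => ∑ i ∈ s, f i a) = ∑ i ∈ s, mean (f i) := by
  simp only [mean]
  rw [Finset.sum_comm, Finset.sum_div]

theorem mean_equiv {γ : Type*} [Fintype γ] (e : β ≃ γ) (f : γ → ℝ) :
    mean (fun a => f (e a)) = mean f := by
  rw [mean, mean, Fintype.card_congr e]
  congr 1
  exact Equiv.sum_comp e f

theorem mean_comm {γ : Type*} [Fintype γ] (f : β → γ → ℝ) :
    mean (fun a => mean fun b => f a b) = mean fun b => mean fun a => f a b := by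
  simp only [mean]
  rw [← Finset.sum_div, ← Finset.sum_div, Finset.sum_comm, div_div, div_div, mul_comm]

theorem mean_pi {n : ℕ} (f : Fin n → β → ℝ) :
    mean (fun σ : Fin n → β => ∏ j, f j (σ j)) = ∏ j, mean (f j) := by
  classical
  simp only [mean]
  rw [Finset.prod_div_distrib, Fintype.prod_sum, Finset.prod_const, Finset.card_univ,
    Fintype.card_pi, Finset.prod_const, Finset.card_univ]
  push_cast
  rfl

theorem mean_abs_le {f : β → ℝ} {c : ℝ} (hc : 0 ≤ c) (h : mean (fun a => f a ^ 2) ≤ c ^ 2) :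
    mean (fun a => |f a|) ≤ c := by
  rcases isEmpty_or_nonempty β with hβ | hβ
  · rw [mean, Finset.univ_eq_empty, Finset.sum_empty, zero_div]
    exact hc
  have hN : (0 : ℝ) < Fintype.card β := by exact_mod_cast Fintype.card_pos
  have h1 := sq_sum_le_card_mul_sum_sq (s := Finset.univ) (f := fun a => |f a|)
  simp only [sq_abs] at h1
  rw [Finset.card_univ] at h1
  refine abs_le_of_sq_le_sq' ?_ hc |>.2
  rw [mean, div_pow, div_le_iff₀ (by positivity)]
  rw [mean, div_le_iff₀ hN] at h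
  calc (∑ a, |f a|) ^ 2 ≤ Fintype.card β * ∑ a, f a ^ 2 := h1
    _ ≤ Fintype.card β * (c ^ 2 * Fintype.card β) := by gcongr
    _ = c ^ 2 * (Fintype.card β : ℝ) ^ 2 := by ring

end Mean

theorem prod_sub_le {ι : Type*} (s : Finset ι) (u v : ι → ℝ) {L : ℝ} (hL : 1 ≤ L)
    (hu : ∀ i, |u i| ≤ L) (hv : ∀ i, |v i| ≤ L) :
    |∏ i ∈ s, u i - ∏ i ∈ s, v i| ≤ L ^ s.card * ∑ i ∈ s, |u i - v i| := by
  classical
  induction s using Finset.induction_on with
  | empty => simp
  | insert a s ha ih =>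
    rw [Finset.prod_insert ha, Finset.prod_insert ha, Finset.sum_insert ha,
      Finset.card_insert_of_notMem ha]
    have hL0 : 0 ≤ L := zero_le_one.trans hL
    have h1 : |∏ i ∈ s, v i| ≤ L ^ s.card := by
      rw [Finset.abs_prod]
      exact (Finset.prod_le_prod (fun i _ => abs_nonneg _) fun i _ => hv i).trans
        (by rw [Finset.prod_const])
    calc |u a * ∏ i ∈ s, u i - v a * ∏ i ∈ s, v i|
        = |u a * (∏ i ∈ s, u i - ∏ i ∈ s, v i) + (u a - v a) * ∏ i ∈ s, v i| := by
          congr 1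
          ring
      _ ≤ |u a| * |∏ i ∈ s, u i - ∏ i ∈ s, v i| + |u a - v a| * |∏ i ∈ s, v i| := by
          refine (abs_add_le _ _).trans ?_
          rw [abs_mul, abs_mul]
      _ ≤ L * (L ^ s.card * ∑ i ∈ s, |u i - v i|) + |u a - v a| * L ^ s.card := by
          gcongr
          exact hu a
      _ ≤ L ^ (s.card + 1) * (|u a - v a| + ∑ i ∈ s, |u i - v i|) := by
          have h2 : L ^ s.card ≤ L ^ (s.card + 1) := pow_le_pow_right₀ hL (Nat.le_succ _)
          have h3 : |u a - v a| * L ^ s.card ≤ |u a - v a| * L ^ (s.card + 1) := by gcongr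
          rw [pow_succ] at *
          nlinarith

variable {α : Type*} [AddCommGroup α] [Fintype α]

theorem four_zero (f : α → ℝ) : four f 0 = (mean f : ℂ) := by
  rw [four, mean, Complex.ofReal_div, Complex.ofReal_sum, Complex.ofReal_natCast]
  simp

theorem mean_le_of_abs {f : α → ℝ} {M : ℝ} (h : ∀ a, |f a| ≤ M) : |mean f| ≤ M := by
  rw [mean, abs_div, Nat.abs_cast, div_le_iff₀ card_pos']
  refine (Finset.abs_sum_le_sum_abs _ _).trans ?_
  refine (Finset.sum_le_sum fun a _ => h a).trans ?_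
  rw [Finset.sum_const, nsmul_eq_mul, Finset.card_univ, mul_comm]

theorem corr_mean (f : α → ℝ) {M ε : ℝ} (hM : ∀ a, |f a| ≤ M) (hε : 0 ≤ ε)
    (h : ∀ ψ : AddChar α ℂ, ψ ≠ 0 → ‖four f ψ‖ ≤ ε) :
    mean (fun ρ => |corr f ρ - mean f ^ 2|) ≤ ε * M := by
  classical
  have hM0 : 0 ≤ M := (abs_nonneg _).trans (hM 0)
  refine mean_abs_le (mul_nonneg hε hM0) ?_
  rw [← parseval]
  have h1 : ∀ ψ : AddChar α ℂ, ‖four (fun ρ => corr f ρ - mean f ^ 2) ψ‖ ^ 2 ≤
      ε ^ 2 * ‖four f ψ‖ ^ 2 := fun ψ => by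
    have h2 : four (fun ρ => corr f ρ - mean f ^ 2) ψ =
        four (corr f) ψ - (mean f : ℂ) ^ 2 * ((∑ a, ψ a) / Fintype.card α) := by
      rw [four, four, mul_div_assoc', ← sub_div, Finset.mul_sum, ← Finset.sum_sub_distrib]
      congr 1
      refine Finset.sum_congr rfl fun a _ => ?_
      push_cast
      ring
    rw [h2]
    by_cases h3 : ψ = 0
    · have h4 : (∑ a, ψ a) / (Fintype.card α : ℂ) = 1 := by
        rw [AddChar.sum_eq_ite, if_pos h3, div_self card_ne]
      rw [h4, mul_one, h3, four_corr, four_zero, Complex.norm_real, Real.norm_eq_abs, sq_abs]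
      push_cast
      rw [sub_self, norm_zero, zero_pow two_ne_zero]
      positivity
    · rw [AddChar.sum_eq_ite, if_neg h3, zero_div, mul_zero, sub_zero, four_corr,
        Complex.norm_real, Real.norm_eq_abs, abs_of_nonneg (by positivity), sq (‖four f ψ‖ ^ 2)]
      refine mul_le_mul_of_nonneg_right ?_ (by positivity)
      exact pow_le_pow_left₀ (norm_nonneg _) (h ψ h3) 2
  refine (Finset.sum_le_sum fun ψ _ => h1 ψ).trans ?_
  rw [← Finset.mul_sum, parseval, mul_pow]
  refine mul_le_mul_of_nonneg_left ?_ (sq_nonneg _)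
  have h5 : mean (fun a => f a ^ 2) ≤ mean fun _ : α => M ^ 2 := mean_mono fun a => by
    rw [← sq_abs]
    exact pow_le_pow_left₀ (abs_nonneg _) (hM a) 2
  rwa [mean_const] at h5

theorem mean_square {n : ℕ} (f : Fin n → α → ℝ) :
    mean (fun σ : Fin n → α => (mean fun τ => ∏ j, f j (σ j + τ)) ^ 2) =
      mean fun ρ => ∏ j, corr (f j) ρ := by
  have h1 : ∀ σ : Fin n → α, (mean fun τ => ∏ j, f j (σ j + τ)) ^ 2 =
      mean fun τ => mean fun τ' => ∏ j, (f j (σ j + τ) * f j (σ j + τ')) := fun σ => by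
    rw [sq]
    conv_lhs => rw [← mean_mul_left]
    rw [mean_comm]
    refine congrArg mean (funext fun τ => ?_)
    rw [mul_comm, ← mean_mul_left]
    refine congrArg mean (funext fun τ' => ?_)
    rw [Finset.prod_mul_distrib, mul_comm]
  simp only [h1]
  rw [mean_comm]
  have h2 : ∀ τ : α, (mean fun σ : Fin n → α => mean fun τ' =>
      ∏ j, (f j (σ j + τ) * f j (σ j + τ'))) = mean fun ρ => ∏ j, corr (f j) ρ := fun τ => by
    rw [mean_comm, ← mean_equiv (Equiv.addLeft τ)]
    refine congrArg mean (funext fun ρ => ?_)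
    rw [mean_pi fun j a => f j (a + τ) * f j (a + Equiv.addLeft τ ρ)]
    refine Finset.prod_congr rfl fun j _ => ?_
    rw [corr, ← mean_equiv (Equiv.addRight τ) fun σ => f j σ * f j (σ + ρ)]
    refine congrArg mean (funext fun a => ?_)
    simp only [Equiv.coe_addRight, Equiv.coe_addLeft, add_assoc]
  simp only [h2]
  rw [mean_const]

theorem mean_translate {n : ℕ} (f : Fin n → α → ℝ) :
    mean (fun σ : Fin n → α => mean fun τ => ∏ j, f j (σ j + τ)) = ∏ j, mean (f j) := by
  rw [mean_comm]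
  have h2 : ∀ τ : α, (mean fun σ : Fin n → α => ∏ j, f j (σ j + τ)) = ∏ j, mean (f j) :=
    fun τ => by
    rw [mean_pi fun j a => f j (a + τ)]
    refine Finset.prod_congr rfl fun j _ => ?_
    exact mean_equiv (Equiv.addRight τ) (f j)
  simp only [h2]
  rw [mean_const]

/-- **the variance of the averages over translates of a product of functions with small Fourier
coefficients** -/
theorem variance {n : ℕ} (f : Fin n → α → ℝ) {M ε : ℝ} (hM1 : 1 ≤ M) (hM : ∀ j a, |f j a| ≤ M)
    (hε : 0 ≤ ε) (h : ∀ j, ∀ ψ : AddChar α ℂ, ψ ≠ 0 → ‖four (f j) ψ‖ ≤ ε) (c : ℝ) :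
    mean (fun σ : Fin n → α => ((mean fun τ => ∏ j, f j (σ j + τ)) - c) ^ 2) ≤
      n * M ^ (2 * n + 1) * ε + (∏ j, mean (f j) - c) ^ 2 := by
  have hM0 : 0 ≤ M := zero_le_one.trans hM1
  have h1 : mean (fun σ : Fin n → α => ((mean fun τ => ∏ j, f j (σ j + τ)) - c) ^ 2) =
      (mean fun ρ => ∏ j, corr (f j) ρ) - 2 * c * (∏ j, mean (f j)) + c ^ 2 := by
    have h2 : ∀ σ : Fin n → α, ((mean fun τ => ∏ j, f j (σ j + τ)) - c) ^ 2 =
        (mean fun τ => ∏ j, f j (σ j + τ)) ^ 2 - 2 * c * (mean fun τ => ∏ j, f j (σ j + τ)) +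
          c ^ 2 := fun σ => by ring
    simp only [h2]
    rw [mean_add, mean_sub, mean_mul_left, mean_square, mean_translate, mean_const]
  have h3 : (mean fun ρ => ∏ j, corr (f j) ρ) - (∏ j, mean (f j)) ^ 2 ≤
      n * M ^ (2 * n + 1) * ε := by
    have h4 : (mean fun ρ => ∏ j, corr (f j) ρ) - (∏ j, mean (f j)) ^ 2 =
        mean fun ρ => (∏ j, corr (f j) ρ - ∏ j, mean (f j) ^ 2) := by
      rw [mean_sub, mean_const, Finset.prod_pow]
    have hc1 : ∀ j ρ, |corr (f j) ρ| ≤ M ^ 2 := fun j ρ => by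
      refine mean_le_of_abs fun σ => ?_
      rw [abs_mul, sq]
      exact mul_le_mul (hM j _) (hM j _) (abs_nonneg _) hM0
    have hc2 : ∀ j, |mean (f j) ^ 2| ≤ M ^ 2 := fun j => by
      rw [abs_pow]
      exact pow_le_pow_left₀ (abs_nonneg _) (mean_le_of_abs (hM j)) 2
    have hM2 : 1 ≤ M ^ 2 := one_le_pow₀ hM1
    rw [h4]
    calc mean (fun ρ => (∏ j, corr (f j) ρ - ∏ j, mean (f j) ^ 2))
        ≤ mean fun ρ => (M ^ 2) ^ n * ∑ j, |corr (f j) ρ - mean (f j) ^ 2| :=
          mean_mono fun ρ => by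
            refine (le_abs_self _).trans ?_
            have h5 := prod_sub_le (Finset.univ : Finset (Fin n)) (fun j => corr (f j) ρ)
              (fun j => mean (f j) ^ 2) hM2 (fun j => hc1 j ρ) hc2
            rwa [Finset.card_univ, Fintype.card_fin] at h5
      _ = (M ^ 2) ^ n * ∑ j, mean fun ρ => |corr (f j) ρ - mean (f j) ^ 2| := by
          rw [mean_mul_left, mean_sum]
      _ ≤ (M ^ 2) ^ n * ∑ _j : Fin n, ε * M := by
          refine mul_le_mul_of_nonneg_left ?_ (by positivity)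
          exact Finset.sum_le_sum fun j _ => corr_mean (f j) (hM j) hε (h j)
      _ = n * M ^ (2 * n + 1) * ε := by
          rw [Finset.sum_const, Finset.card_univ, Fintype.card_fin, nsmul_eq_mul]
          ring
  rw [h1]
  nlinarith

end Pool.Agent.Q28.AT
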